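import Mathlib
import Pool.Agent.H.MP_4cef1b_gt.C

set_option autoImplicit false

namespace Pool.Agent.Results.MP_4cef1b_gt.Square

/-- some countable union of discrete subspaces is dense. -/
def dSep (X : Type) [TopologicalSpace X] : Prop :=
  ∃ F : ℕ → Set X, (∀ n, DiscreteTopology ↥(F n)) ∧ Dense (⋃ n, F n)

/-- the selective version. -/
def DSep (X : Type) [TopologicalSpace X] : Prop :=
  ∀ D : ℕ → Set X, (∀ n, Dense (D n)) →
    ∃ F : ℕ → Set X, (∀ n, F n ⊆ D n ∧ DiscreteTopology ↥(F n)) ∧ Dense (⋃ n, F n)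

theorem result : ∃ (X : Type) (_ : TopologicalSpace X),
    T35Space X ∧ ¬ dSep X ∧ ¬ DSep X ∧ DSep (X × X) := by
  obtain ⟨X, t, h1, h2, h3⟩ := Pool.Agent.H.MP_4cef1b_gt.main
  refine ⟨X, t, h1, h2, fun h => h2 ?_, h3⟩
  obtain ⟨F, hF, hd⟩ := h (fun _ => Set.univ) (fun _ => dense_univ)
  exact ⟨F, fun n => (hF n).2, hd⟩

end Pool.Agent.Results.MP_4cef1b_gt.Square
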